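import Mathlib

set_option autoImplicit false

namespace Pool.Agent.Results.MP_c563b5_an.GapUnbounded

open Finset

lemma tail_bound {a : ℕ → ℝ} {t : ℝ} {K : ℕ} (ht : 0 ≤ t)
    (hup : ∀ k, K ≤ k → |a (k + 1)| * t ≤ (1 / 4) * |a k|) :
    |∑' k, a (k + (K + 1)) * (-t) ^ (k + (K + 1))| ≤ (1 / 3) * (|a K| * t ^ K) := by
  have h1 : ∀ j : ℕ, |a (j + K)| * t ^ (j + K) ≤ (1 / 4) ^ j * (|a K| * t ^ K) := by
    intro j
    induction j with
    | zero => simp
    | succ j ih =>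
      have h2 := hup (j + K) (by omega)
      calc |a (j + 1 + K)| * t ^ (j + 1 + K)
          = (|a (j + K + 1)| * t) * t ^ (j + K) := by
            rw [show j + 1 + K = j + K + 1 from by ring]; ring
        _ ≤ ((1 / 4) * |a (j + K)|) * t ^ (j + K) :=
            mul_le_mul_of_nonneg_right h2 (pow_nonneg ht _)
        _ = (1 / 4) * (|a (j + K)| * t ^ (j + K)) := by ring
        _ ≤ (1 / 4) * ((1 / 4) ^ j * (|a K| * t ^ K)) := by
            apply mul_le_mul_of_nonneg_left ih; norm_num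
        _ = (1 / 4) ^ (j + 1) * (|a K| * t ^ K) := by ring
  have hg : HasSum (fun k : ℕ => (1 / 4 : ℝ) ^ k * ((1 / 4) * (|a K| * t ^ K)))
      ((1 / 3) * (|a K| * t ^ K)) := by
    have := (hasSum_geometric_of_lt_one (r := (1 / 4 : ℝ)) (by norm_num) (by norm_num)).mul_right
      ((1 / 4) * (|a K| * t ^ K))
    have e : (1 - (1 / 4 : ℝ))⁻¹ * ((1 / 4) * (|a K| * t ^ K)) = (1 / 3) * (|a K| * t ^ K) := by
      rw [show (1 - (1 / 4 : ℝ))⁻¹ = 4 / 3 from by norm_num]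
      ring
    rw [e] at this
    exact this
  have := tsum_of_norm_bounded hg (f := fun k => a (k + (K + 1)) * (-t) ^ (k + (K + 1))) (by
    intro k
    rw [Real.norm_eq_abs, abs_mul, abs_pow, abs_neg, abs_of_nonneg ht]
    have := h1 (k + 1)
    rw [show k + (K + 1) = k + 1 + K from by ring]
    refine this.trans (le_of_eq ?_)
    ring)
  simpa [Real.norm_eq_abs] using this

lemma head_bound {a : ℕ → ℝ} {t : ℝ} (ht : 0 ≤ t) : ∀ {K : ℕ},
    (∀ k, k < K → |a k| ≤ (1 / 4) * (|a (k + 1)| * t)) →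
    ∑ k ∈ range K, |a k| * t ^ k ≤ (1 / 3) * (|a K| * t ^ K) := by
  intro K
  induction K with
  | zero => intro _; simp
  | succ K ih =>
    intro h
    rw [sum_range_succ]
    have h1 := ih (fun k hk => h k (by omega))
    have h2 := h K (by omega)
    have h3 : |a K| * t ^ K ≤ (1 / 4) * (|a (K + 1)| * t) * t ^ K :=
      mul_le_mul_of_nonneg_right h2 (pow_nonneg ht _)
    have h4 : (1 / 4) * (|a (K + 1)| * t) * t ^ K = (1 / 4) * (|a (K + 1)| * t ^ (K + 1)) := by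
      ring
    linarith

lemma head_bound' {a : ℕ → ℝ} {t : ℝ} (ht : 0 ≤ t) {K : ℕ}
    (h : ∀ k, k < K → |a k| ≤ (1 / 4) * (|a (k + 1)| * t)) :
    |∑ k ∈ range K, a k * (-t) ^ k| ≤ (1 / 3) * (|a K| * t ^ K) := by
  refine (Finset.abs_sum_le_sum_abs _ _).trans ?_
  refine le_trans (le_of_eq ?_) (head_bound ht h)
  apply sum_congr rfl
  intro k _
  rw [abs_mul, abs_pow, abs_neg, abs_of_nonneg ht]

/-- one dominating term -/
lemma sign_one {a : ℕ → ℝ} {t F : ℝ} {K : ℕ} (ht : 0 < t)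
    (hF : HasSum (fun k => a k * (-t) ^ k) F) (haK : a K ≠ 0)
    (hup : ∀ k, K ≤ k → |a (k + 1)| * t ≤ (1 / 4) * |a k|)
    (hdown : ∀ k, k < K → |a k| ≤ (1 / 4) * (|a (k + 1)| * t)) :
    0 < ((-1) ^ K * a K) * F := by
  have h1 := tail_bound ht.le hup
  have h2 := head_bound' ht.le hdown
  have h3 := hF.summable.sum_add_tsum_nat_add (K + 1)
  rw [hF.tsum_eq, sum_range_succ] at h3
  set c := |a K| * t ^ K with hc
  have hcpos : 0 < c := mul_pos (abs_pos.2 haK) (pow_pos ht _)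
  have h4 : |F - a K * (-t) ^ K| ≤ (2 / 3) * c := by
    rw [← h3]
    have : ∑ k ∈ range K, a k * (-t) ^ k + a K * (-t) ^ K
        + ∑' (i : ℕ), a (i + (K + 1)) * (-t) ^ (i + (K + 1)) - a K * (-t) ^ K
        = ∑ k ∈ range K, a k * (-t) ^ k
          + ∑' (i : ℕ), a (i + (K + 1)) * (-t) ^ (i + (K + 1)) := by ring
    rw [this]
    refine (abs_add_le _ _).trans ?_
    linarith
  have h5 : a K * (-t) ^ K = ((-1) ^ K * a K) * t ^ K := by
    rw [neg_pow]; ring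
  rw [h5] at h4
  have h6 : |(-1) ^ K * a K| = |a K| := by
    rw [abs_mul, abs_pow, abs_neg, abs_one, one_pow, one_mul]
  rw [← h6] at hc
  generalize (-1) ^ K * a K = b at *
  rcases lt_trichotomy b 0 with hb | hb | hb
  · rw [abs_of_neg hb] at hc
    have := (abs_le.1 h4).2
    apply mul_pos_of_neg_of_neg hb
    nlinarith
  · rw [hb] at hc
    simp at hc
    linarith
  · rw [abs_of_pos hb] at hc
    have := (abs_le.1 h4).1
    apply mul_pos hb
    nlinarith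

/-- two dominating terms of the same sign -/
lemma sign_two {a : ℕ → ℝ} {t F : ℝ} {K : ℕ} (ht : 0 < t)
    (hF : HasSum (fun k => a k * (-t) ^ k) F) (haK : a K ≠ 0)
    (hsame : 0 < ((-1) ^ K * a K) * ((-1) ^ (K + 1) * a (K + 1)))
    (hup : ∀ k, K + 1 ≤ k → |a (k + 1)| * t ≤ (1 / 4) * |a k|)
    (hdown : ∀ k, k < K → |a k| ≤ (1 / 4) * (|a (k + 1)| * t)) :
    0 < ((-1) ^ K * a K) * F := by
  have h1 := tail_bound ht.le hup
  have h2 := head_bound' ht.le hdown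
  have h3 := hF.summable.sum_add_tsum_nat_add (K + 1 + 1)
  rw [hF.tsum_eq, sum_range_succ, sum_range_succ] at h3
  have hcpos : 0 < |a K| * t ^ K := mul_pos (abs_pos.2 haK) (pow_pos ht _)
  have hcpos' : 0 ≤ |a (K + 1)| * t ^ (K + 1) := by positivity
  have h4 : |F - (a K * (-t) ^ K + a (K + 1) * (-t) ^ (K + 1))|
      ≤ (1 / 3) * (|a K| * t ^ K) + (1 / 3) * (|a (K + 1)| * t ^ (K + 1)) := by
    rw [← h3]
    have : ∑ k ∈ range K, a k * (-t) ^ k + a K * (-t) ^ K + a (K + 1) * (-t) ^ (K + 1)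
        + ∑' (i : ℕ), a (i + (K + 1 + 1)) * (-t) ^ (i + (K + 1 + 1))
          - (a K * (-t) ^ K + a (K + 1) * (-t) ^ (K + 1))
        = ∑ k ∈ range K, a k * (-t) ^ k
          + ∑' (i : ℕ), a (i + (K + 1 + 1)) * (-t) ^ (i + (K + 1 + 1)) := by ring
    rw [this]
    refine (abs_add_le _ _).trans ?_
    linarith
  have h5 : a K * (-t) ^ K = ((-1) ^ K * a K) * t ^ K := by
    rw [neg_pow]; ring
  have h5' : a (K + 1) * (-t) ^ (K + 1) = ((-1) ^ (K + 1) * a (K + 1)) * t ^ (K + 1) := by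
    rw [neg_pow]; ring
  rw [h5, h5'] at h4
  have h6 : |a K| = |(-1) ^ K * a K| := by
    rw [abs_mul, abs_pow, abs_neg, abs_one, one_pow, one_mul]
  have h6' : |a (K + 1)| = |(-1) ^ (K + 1) * a (K + 1)| := by
    rw [abs_mul, abs_pow, abs_neg, abs_one, one_pow, one_mul]
  rw [h6, h6'] at h4
  rw [h6] at hcpos
  rw [h6'] at hcpos'
  generalize (-1) ^ K * a K = b at *
  generalize (-1) ^ (K + 1) * a (K + 1) = b' at *
  rcases lt_trichotomy b 0 with hb | hb | hb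
  · have hb' : b' < 0 := (neg_iff_neg_of_mul_pos hsame).1 hb
    rw [abs_of_neg hb] at *
    rw [abs_of_neg hb'] at *
    have := (abs_le.1 h4).2
    apply mul_pos_of_neg_of_neg hb
    nlinarith
  · rw [hb] at hcpos
    simp at hcpos
  · have hb' : 0 < b' := (pos_iff_pos_of_mul_pos hsame).1 hb
    rw [abs_of_pos hb] at *
    rw [abs_of_pos hb'] at *
    have := (abs_le.1 h4).1
    apply mul_pos hb
    nlinarith

/-- the sequence `(k+1)^N (k - (m+1/2))^j` -/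
noncomputable def A (m N j k : ℕ) : ℝ := ((k : ℝ) + 1) ^ N * ((k : ℝ) - (m + 1 / 2)) ^ j

lemma A_abs (m N j k : ℕ) : |A m N j k| = ((k : ℝ) + 1) ^ N * |(k : ℝ) - (m + 1 / 2)| ^ j := by
  unfold A
  rw [abs_mul, abs_pow, abs_pow, abs_of_pos (by positivity)]

lemma A_ne_zero (m N j k : ℕ) : A m N j k ≠ 0 := by
  unfold A
  apply mul_ne_zero (by positivity)
  apply pow_ne_zero
  intro h
  have h2 : (2 * k : ℝ) = 2 * m + 1 := by linarith
  have h3 : 2 * k = 2 * m + 1 := by exact_mod_cast h2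
  omega

/-- the evaluation points -/
noncomputable def τ (N K : ℕ) : ℝ := (1 / 36) * (((K : ℝ) + 1) / (K + 2)) ^ N

lemma τ_pos (N K : ℕ) : 0 < τ N K := by unfold τ; positivity

lemma τ_le (N K : ℕ) : τ N K ≤ 1 / 36 := by
  unfold τ
  have h1 : (((K : ℝ) + 1) / (K + 2)) ^ N ≤ 1 := by
    apply pow_le_one₀ (by positivity)
    rw [div_le_one (by positivity)]
    linarith
  linarith

lemma pow_le_nine {j : ℕ} (hj : j = 1 ∨ j = 2) {x z : ℝ} (h : |x| ≤ 3 * |z|) :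
    |x| ^ j ≤ 9 * |z| ^ j := by
  have hx := abs_nonneg x
  have hz := abs_nonneg z
  rcases hj with rfl | rfl
  · simp only [pow_one]; linarith
  · nlinarith

lemma A_up {m N j K : ℕ} (hj : j = 1 ∨ j = 2) (hmK : m ≤ K) {t : ℝ}
    (ht : t ≤ τ N K) (k : ℕ) (hk : K ≤ k) :
    |A m N j (k + 1)| * t ≤ (1 / 4) * |A m N j k| := by
  rw [A_abs, A_abs]
  have h1 : |((k + 1 : ℕ) : ℝ) - (m + 1 / 2)| ≤ 3 * |(k : ℝ) - (m + 1 / 2)| := by
    push_cast
    rcases (le_trans hmK hk).eq_or_lt with h | h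
    · subst h
      rw [show (m : ℝ) + 1 - (m + 1 / 2) = 1 / 2 from by ring,
        show (m : ℝ) - (m + 1 / 2) = -(1 / 2) from by ring, abs_neg]
      rw [abs_of_pos (by norm_num : (0 : ℝ) < 1 / 2)]
      norm_num
    · have h' : (m : ℝ) + 1 ≤ k := by exact_mod_cast h
      rw [abs_of_nonneg (by linarith), abs_of_nonneg (by linarith)]
      linarith
  have h2 := pow_le_nine hj h1
  have h3 : ((((k + 1 : ℕ) : ℝ) + 1) ^ N) * t ≤ (1 / 36) * ((k : ℝ) + 1) ^ N := by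
    have hkK : (K : ℝ) ≤ k := by exact_mod_cast hk
    have e : ((K : ℝ) + 1) / (K + 2) ≤ ((k : ℝ) + 1) / (k + 2) := by
      rw [div_le_div_iff₀ (by positivity) (by positivity)]
      nlinarith
    have e2 : t ≤ (1 / 36) * (((k : ℝ) + 1) / (k + 2)) ^ N := by
      refine ht.trans ?_
      unfold τ
      apply mul_le_mul_of_nonneg_left _ (by norm_num)
      exact pow_le_pow_left₀ (by positivity) e N
    calc ((((k + 1 : ℕ) : ℝ) + 1) ^ N) * t
        ≤ ((((k + 1 : ℕ) : ℝ) + 1) ^ N) * ((1 / 36) * (((k : ℝ) + 1) / (k + 2)) ^ N) :=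
          mul_le_mul_of_nonneg_left e2 (by positivity)
      _ = (1 / 36) * ((k : ℝ) + 1) ^ N := by
          push_cast
          rw [div_pow]
          have : ((k : ℝ) + 1 + 1) = k + 2 := by ring
          rw [this]
          field_simp
  calc ((((k + 1 : ℕ) : ℝ) + 1) ^ N) * |((k + 1 : ℕ) : ℝ) - (m + 1 / 2)| ^ j * t
      = (((((k + 1 : ℕ) : ℝ) + 1) ^ N) * t) * |((k + 1 : ℕ) : ℝ) - (m + 1 / 2)| ^ j := by ring
    _ ≤ ((1 / 36) * ((k : ℝ) + 1) ^ N) * (9 * |(k : ℝ) - (m + 1 / 2)| ^ j) :=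
        mul_le_mul h3 h2 (by positivity) (by positivity)
    _ = 1 / 4 * (((k : ℝ) + 1) ^ N * |(k : ℝ) - (m + 1 / 2)| ^ j) := by ring

lemma A_down {m N j K : ℕ} (hj : j = 1 ∨ j = 2) (hmK : K ≤ m + 1)
    (hN : ((((m : ℝ) + 1) * (m + 3)) / ((m + 2) ^ 2)) ^ N ≤ 1 / 1296) {t : ℝ}
    (ht : τ N K ≤ t) (k : ℕ) (hk : k < K) :
    |A m N j k| ≤ (1 / 4) * (|A m N j (k + 1)| * t) := by
  rw [A_abs, A_abs]
  have hKm : (K : ℝ) ≤ m + 1 := by exact_mod_cast hmK
  have hkK : (k : ℝ) + 1 ≤ K := by exact_mod_cast hk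
  have h1 : |(k : ℝ) - (m + 1 / 2)| ≤ 3 * |((k + 1 : ℕ) : ℝ) - (m + 1 / 2)| := by
    push_cast
    have hkm : k ≤ m := by omega
    rcases hkm.eq_or_lt with h | h
    · subst h
      rw [show (k : ℝ) + 1 - (k + 1 / 2) = 1 / 2 from by ring,
        show (k : ℝ) - (k + 1 / 2) = -(1 / 2) from by ring, abs_neg]
      rw [abs_of_pos (by norm_num : (0 : ℝ) < 1 / 2)]
      norm_num
    · have h' : (k : ℝ) + 1 ≤ m := by exact_mod_cast h
      rw [abs_of_nonpos (by linarith), abs_of_nonpos (by linarith)]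
      linarith
  have h2 := pow_le_nine hj h1
  have hk0 : (0 : ℝ) ≤ k := Nat.cast_nonneg k
  have hm0 : (0 : ℝ) ≤ m := Nat.cast_nonneg m
  have hK0 : (0 : ℝ) ≤ K := Nat.cast_nonneg K
  have h3 : 36 * ((k : ℝ) + 1) ^ N ≤ ((((k + 1 : ℕ) : ℝ) + 1) ^ N) * t := by
    have e : ((k : ℝ) + 1) ≤ ((((m : ℝ) + 1) * (m + 3)) / ((m + 2) ^ 2))
        * ((k + 2) * (((K : ℝ) + 1) / (K + 2))) := by
      have e1 : ((k : ℝ) + 1) / (k + 2) ≤ (K : ℝ) / (K + 1) := by
        rw [div_le_div_iff₀ (by positivity) (by positivity)]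
        nlinarith
      have e2 : (K : ℝ) * (K + 2) / (K + 1) ^ 2 ≤ (((m : ℝ) + 1) * (m + 3)) / ((m + 2) ^ 2) := by
        rw [div_le_div_iff₀ (by positivity) (by positivity)]
        have : 0 ≤ (m : ℝ) + 1 - K := by linarith
        nlinarith [mul_nonneg this (by positivity : (0 : ℝ) ≤ (m + 1) + K + 2)]
      calc ((k : ℝ) + 1) = ((k : ℝ) + 1) / (k + 2) * (k + 2) := by field_simp
        _ ≤ (K : ℝ) / (K + 1) * (k + 2) := mul_le_mul_of_nonneg_right e1 (by positivity)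
        _ = ((K : ℝ) * (K + 2) / (K + 1) ^ 2) * ((k + 2) * (((K : ℝ) + 1) / (K + 2))) := by
            field_simp
        _ ≤ _ := mul_le_mul_of_nonneg_right e2 (by positivity)
    have e3 : ((k : ℝ) + 1) ^ N ≤ (1 / 1296) * ((k + 2) ^ N * (((K : ℝ) + 1) / (K + 2)) ^ N) := by
      calc ((k : ℝ) + 1) ^ N ≤ (((((m : ℝ) + 1) * (m + 3)) / ((m + 2) ^ 2))
        * ((k + 2) * (((K : ℝ) + 1) / (K + 2)))) ^ N := pow_le_pow_left₀ (by positivity) e N
        _ = ((((m : ℝ) + 1) * (m + 3)) / ((m + 2) ^ 2)) ^ N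
            * ((k + 2) ^ N * (((K : ℝ) + 1) / (K + 2)) ^ N) := by rw [mul_pow, mul_pow]
        _ ≤ _ := mul_le_mul_of_nonneg_right hN (by positivity)
    have e4 : ((((K : ℝ) + 1) / (K + 2)) ^ N) ≤ 36 * t := by
      unfold τ at ht; linarith
    push_cast
    rw [show (k : ℝ) + 1 + 1 = k + 2 from by ring]
    have e5 : ((k : ℝ) + 2) ^ N * (((K : ℝ) + 1) / (K + 2)) ^ N ≤ ((k : ℝ) + 2) ^ N * (36 * t) :=
      mul_le_mul_of_nonneg_left e4 (by positivity)
    linarith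
  have ht0 : 0 < t := (τ_pos N K).trans_le ht
  calc ((k : ℝ) + 1) ^ N * |(k : ℝ) - (m + 1 / 2)| ^ j
      ≤ ((1 / 36) * (((((k + 1 : ℕ) : ℝ) + 1) ^ N) * t))
        * (9 * |((k + 1 : ℕ) : ℝ) - (m + 1 / 2)| ^ j) := by
        apply mul_le_mul _ h2 (by positivity) (by positivity)
        linarith
    _ = _ := by ring

end Pool.Agent.Results.MP_c563b5_an.GapUnbounded
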