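import Pool.Agent.Lib_MP_c563b5_an.Poly

set_option autoImplicit false

namespace Pool.Agent.Results.MP_c563b5_an.GapUnbounded

open Finset Polynomial

/-- `Chain f n ε a`: there are points `a > s₁ > s₂ > ... > s_n > 0` at which `f` has
alternating signs, `f s₁` having the sign of `ε`. -/
def Chain (f : ℝ → ℝ) : ℕ → ℝ → ℝ → Prop
  | 0, _, _ => True
  | (n + 1), ε, a => ∃ s, 0 < s ∧ s < a ∧ 0 < ε * f s ∧ Chain f n (-ε) s

lemma Chain.mono {f : ℝ → ℝ} {n : ℕ} {ε a b : ℝ} (h : Chain f n ε a) (hab : a ≤ b) :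
    Chain f n ε b := by
  cases n with
  | zero => trivial
  | succ n =>
    obtain ⟨s, h0, h1, h2, h3⟩ := h
    exact ⟨s, h0, h1.trans_le hab, h2, h3⟩

lemma Chain.pred {f : ℝ → ℝ} : ∀ {n : ℕ} {ε a : ℝ}, Chain f (n + 1) ε a → Chain f n ε a
  | 0, _, _, _ => trivial
  | (_ + 1), _, _, ⟨s, h0, h1, h2, h3⟩ => ⟨s, h0, h1, h2, Chain.pred h3⟩

/-- The abstract Rolle step: `h` has the sign of `f`, vanishes at `0` and wherever `h` increases
or decreases between two points, `g` has the corresponding sign somewhere in between. -/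
structure RolleStep (f g h : ℝ → ℝ) : Prop where
  zero : h 0 = 0
  sign : ∀ ε u, 0 < u → u < 1 → 0 < ε * f u → 0 < ε * h u
  step : ∀ ε s a, 0 ≤ s → s < a → a < 1 → 0 < ε * (h a - h s) →
    ∃ ξ, s < ξ ∧ ξ < a ∧ 0 < (-ε) * g ξ

lemma RolleStep.between {f g h : ℝ → ℝ} (H : RolleStep f g h) {ε s a : ℝ} (hs : 0 < s)
    (hsa : s < a) (ha : a < 1) (h1 : 0 < ε * f a) (h2 : 0 < (-ε) * f s) :
    ∃ ξ, s < ξ ∧ ξ < a ∧ 0 < (-ε) * g ξ := by
  apply H.step ε s a hs.le hsa ha
  have e1 := H.sign ε a (hs.trans hsa) ha h1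
  have e2 := H.sign (-ε) s hs (hsa.trans ha) h2
  linarith

lemma RolleStep.last {f g h : ℝ → ℝ} (H : RolleStep f g h) {ε a : ℝ} (h0 : 0 < a)
    (ha : a < 1) (h1 : 0 < ε * f a) :
    ∃ ξ, 0 < ξ ∧ ξ < a ∧ 0 < (-ε) * g ξ := by
  apply H.step ε 0 a le_rfl h0 ha
  have e1 := H.sign ε a h0 ha h1
  rw [H.zero]
  linarith

/-- Rolle: the number of sign changes grows by one. -/
lemma RolleStep.chain {f g h : ℝ → ℝ} (H : RolleStep f g h) :
    ∀ (n : ℕ) {ε a : ℝ}, 0 < a → a < 1 → 0 < ε * f a → Chain f n (-ε) a →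
      Chain g (n + 1) (-ε) a := by
  intro n
  induction n with
  | zero =>
    intro ε a h0 ha h1 _
    obtain ⟨ξ, hξ0, hξa, hξ⟩ := H.last h0 ha h1
    exact ⟨ξ, hξ0, hξa, hξ, trivial⟩
  | succ n ih =>
    intro ε a h0 ha h1 hc
    obtain ⟨s, hs0, hsa, hs, hc'⟩ := hc
    obtain ⟨ξ, hξ0, hξa, hξ⟩ := H.between hs0 hsa ha h1 hs
    exact ⟨ξ, hs0.trans hξ0, hξa, hξ, (ih hs0 (hsa.trans ha) hs hc').mono hξ0.le⟩

/-- Rolle with an interval `[v, w]` on which `f` has constant sign `σ`, while `g` has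
sign `-σ` at `w` and `σ` at `v`: two additional sign changes. -/
lemma RolleStep.chain_insert {f g h : ℝ → ℝ} (H : RolleStep f g h) {v w σ : ℝ}
    (hv : 0 < v) (hvw : v < w) (hw : w < 1)
    (hf : ∀ u, v ≤ u → u ≤ w → 0 < σ * f u) (hσ : σ = 1 ∨ σ = -1)
    (hgw : 0 < (-σ) * g w) (hgv : 0 < σ * g v) :
    ∀ (n : ℕ) {ε a : ℝ}, (ε = 1 ∨ ε = -1) → w < a → a < 1 → 0 < ε * f a →
      Chain f n (-ε) a → Chain g (n + 3) (-ε) a := by
  have hend : ∀ (n : ℕ) (ε a : ℝ), ε = σ → w < a → 0 < a → a < 1 → Chain f n (-ε) v →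
      Chain g (n + 3) (-ε) a := by
    intro n ε a hε hwa h0 ha hc
    subst hε
    refine ⟨w, hv.trans hvw, hwa, hgw, v, hv, hvw, by simpa using hgv, ?_⟩
    rw [neg_neg]
    exact H.chain n hv (hvw.trans hw) (hf v le_rfl hvw.le) hc
  intro n
  induction n with
  | zero =>
    intro ε a hε hwa ha h1 _
    have h0 : 0 < a := (hv.trans hvw).trans hwa
    by_cases hεσ : ε = σ
    · exact hend 0 ε a hεσ hwa h0 ha trivial
    · have hεσ' : σ = -ε := by
        rcases hε with rfl | rfl <;> rcases hσ with rfl | rfl <;> simp at hεσ ⊢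
      subst hεσ'
      obtain ⟨ξ, hξ0, hξa, hξ⟩ := H.between (hv.trans hvw) hwa ha h1 (hf w hvw.le le_rfl)
      exact ⟨ξ, (hv.trans hvw).trans hξ0, hξa, hξ, w, hv.trans hvw, hξ0, by simpa using hgw,
        v, hv, hvw, by simpa using hgv, trivial⟩
  | succ n ih =>
    intro ε a hε hwa ha h1 hc
    have h0 : 0 < a := (hv.trans hvw).trans hwa
    obtain ⟨s, hs0, hsa, hs, hc'⟩ := hc
    by_cases hsw : w < s
    · obtain ⟨ξ, hξ0, hξa, hξ⟩ := H.between hs0 hsa ha h1 hs
      have hε' : -ε = 1 ∨ -ε = -1 := by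
        rcases hε with rfl | rfl <;> simp
      exact ⟨ξ, hs0.trans hξ0, hξa, hξ, (ih hε' hsw (hsa.trans ha) hs hc').mono hξ0.le⟩
    · push Not at hsw
      by_cases hεσ : ε = σ
      · -- then `s` is to the left of `v`
        apply hend (n + 1) ε a hεσ hwa h0 ha
        refine ⟨s, hs0, ?_, hs, hc'⟩
        by_contra hcon
        push Not at hcon
        have := hf s hcon hsw
        subst hεσ
        linarith
      · have hεσ' : σ = -ε := by
          rcases hε with rfl | rfl <;> rcases hσ with rfl | rfl <;> simp at hεσ ⊢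
        subst hεσ'
        have hcv : Chain f n (- -ε) v := by
          cases n with
          | zero => trivial
          | succ n =>
            obtain ⟨s', hs'0, hs's, hs', hc''⟩ := hc'
            refine ⟨s', hs'0, ?_, hs', hc''⟩
            by_contra hcon
            push Not at hcon
            have := hf s' hcon (hs's.le.trans hsw)
            linarith
        obtain ⟨ξ, hξ0, hξa, hξ⟩ := H.between (hv.trans hvw) hwa ha h1 (hf w hvw.le le_rfl)
        refine ⟨ξ, (hv.trans hvw).trans hξ0, hξa, hξ, w, hv.trans hvw, hξ0, by simpa using hgw,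
          v, hv, hvw, by simpa using hgv, ?_⟩
        have := H.chain n hv (hvw.trans hw) (hf v le_rfl hvw.le) hcv
        simpa using this

/-- Sign changes give zeros. -/
lemma Chain.zeros {f : ℝ → ℝ} (hf : Continuous f) : ∀ (n : ℕ) {ε a : ℝ}, 0 < ε * f a →
    Chain f n (-ε) a → ∃ S : Finset ℝ, S.card = n ∧ ∀ x ∈ S, 0 < x ∧ x < a ∧ f x = 0 := by
  intro n
  induction n with
  | zero => intro ε a _ _; exact ⟨∅, rfl, by simp⟩
  | succ n ih =>
    intro ε a h1 hc
    obtain ⟨s, hs0, hsa, hs, hc'⟩ := hc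
    obtain ⟨S, hS, hS'⟩ := ih hs hc'
    have : ∃ x ∈ Set.Ioo s a, ε * f x = 0 := by
      have hcont : ContinuousOn (fun x => ε * f x) (Set.Icc s a) :=
        (continuous_const.mul hf).continuousOn
      have := intermediate_value_Ioo hsa.le hcont
      have h0 : (0 : ℝ) ∈ Set.Ioo (ε * f s) (ε * f a) := ⟨by linarith, h1⟩
      obtain ⟨x, hx, hx'⟩ := this h0
      exact ⟨x, hx, hx'⟩
    obtain ⟨x, hx, hx'⟩ := this
    have hε : ε ≠ 0 := by
      rintro rfl
      simp at h1
    have hfx : f x = 0 := by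
      rcases mul_eq_zero.1 hx' with h | h
      · exact absurd h hε
      · exact h
    refine ⟨insert x S, ?_, ?_⟩
    · rw [card_insert_of_notMem, hS]
      intro hxS
      have := (hS' x hxS).2.1
      exact absurd hx.1 (not_lt.2 this.le)
    · intro z hz
      rw [mem_insert] at hz
      rcases hz with rfl | hz
      · exact ⟨hs0.trans hx.1, hx.2, hfx⟩
      · obtain ⟨h1, h2, h3⟩ := hS' z hz
        exact ⟨h1, h2.trans hsa, h3⟩

/-- The Rolle step for the operator `T c`, `c ≤ 1`. -/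
lemma rolleStep_T {c : ℝ} (hc : c ≤ 1) {E : ℝ[X]} (h0 : c < 1 ∨ E.eval 0 = 0) :
    RolleStep (fun u => E.eval u) (fun u => (T c E).eval u)
      (fun u => u ^ (1 - c) * (1 - u) ^ c * E.eval u) := by
  refine ⟨?_, ?_, ?_⟩
  · rcases h0 with h | h
    · rw [Real.zero_rpow (by linarith)]; ring
    · rw [h]; ring
  · intro ε u hu0 hu1 h
    have h1 : 0 < u ^ (1 - c) := Real.rpow_pos_of_pos hu0 _
    have h2 : 0 < (1 - u) ^ c := Real.rpow_pos_of_pos (by linarith) _
    have : ε * (u ^ (1 - c) * (1 - u) ^ c * E.eval u)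
        = (u ^ (1 - c) * (1 - u) ^ c) * (ε * E.eval u) := by ring
    rw [this]
    positivity
  · intro ε s a hs hsa ha h
    have hcont : ContinuousOn (fun u : ℝ => u ^ (1 - c) * (1 - u) ^ c * E.eval u)
        (Set.Icc s a) := by
      apply ContinuousOn.mul
      · apply ContinuousOn.mul
        · intro u _
          exact (Real.continuousAt_rpow_const u (1 - c) (Or.inr (by linarith))).continuousWithinAt
        · intro u hu
          apply ContinuousAt.continuousWithinAt
          have h1 : (1 - u) ≠ 0 := by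
            have := hu.2
            intro h
            linarith
          exact ((continuous_const.sub continuous_id).continuousAt).rpow_const (Or.inl h1)
      · exact E.continuous.continuousOn
    have hderiv : ∀ u ∈ Set.Ioo s a, HasDerivAt
        (fun u : ℝ => u ^ (1 - c) * (1 - u) ^ c * E.eval u)
        (- (u ^ (-c) * (1 - u) ^ (c - 1) * (T c E).eval u)) u := by
      intro u hu
      have hu0 : 0 < u := lt_of_le_of_lt hs hu.1
      have hu1 : 0 < 1 - u := by have := hu.2; linarith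
      have d1 : HasDerivAt (fun u : ℝ => u ^ (1 - c)) ((1 - c) * u ^ (1 - c - 1)) u :=
        Real.hasDerivAt_rpow_const (Or.inl hu0.ne')
      have d2 : HasDerivAt (fun u : ℝ => (1 - u) ^ c) (-1 * c * (1 - u) ^ (c - 1)) u :=
        ((hasDerivAt_id u).const_sub 1).rpow_const (Or.inl hu1.ne')
      have d3 : HasDerivAt (fun u : ℝ => E.eval u) ((derivative E).eval u) u :=
        E.hasDerivAt u
      have d := (d1.mul d2).mul d3
      refine d.congr_deriv ?_
      rw [T_eval]
      have e1 : u ^ (1 - c) = u ^ (-c) * u := by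
        rw [← Real.rpow_add_one hu0.ne']; congr 1; ring
      have e2 : (1 - u) ^ c = (1 - u) ^ (c - 1) * (1 - u) := by
        rw [← Real.rpow_add_one hu1.ne']; congr 1; ring
      have e3 : u ^ (1 - c - 1) = u ^ (-c) := by congr 1; ring
      simp only [Pi.mul_apply]
      rw [e1, e2, e3]
      ring
    obtain ⟨ξ, hξ, hξ'⟩ := exists_hasDerivAt_eq_slope _ _ hsa hcont hderiv
    refine ⟨ξ, hξ.1, hξ.2, ?_⟩
    have hξ0 : 0 < ξ := lt_of_le_of_lt hs hξ.1
    have hξ1 : 0 < 1 - ξ := by have := hξ.2; linarith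
    have hw : 0 < ξ ^ (-c) * (1 - ξ) ^ (c - 1) :=
      mul_pos (Real.rpow_pos_of_pos hξ0 _) (Real.rpow_pos_of_pos hξ1 _)
    have hsa' : 0 < a - s := by linarith
    rw [eq_div_iff hsa'.ne'] at hξ'
    rw [← hξ'] at h
    have h' : 0 < (ξ ^ (-c) * (1 - ξ) ^ (c - 1) * (a - s)) * (-ε * (T c E).eval ξ) := by
      linarith [h, show ε * (-(ξ ^ (-c) * (1 - ξ) ^ (c - 1) * (T c E).eval ξ) * (a - s))
        = (ξ ^ (-c) * (1 - ξ) ^ (c - 1) * (a - s)) * (-ε * (T c E).eval ξ) from by ring]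
    exact (pos_iff_pos_of_mul_pos h').1 (mul_pos hw hsa')

end Pool.Agent.Results.MP_c563b5_an.GapUnbounded
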