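import Mathlib

set_option autoImplicit false

namespace Pool.Agent.Results.MP_c563b5_an.GapUnbounded

/-- A real sequence `a` is totally positive if every minor of the infinite lower triangular
Toeplitz matrix `(a (i - j))`, with `a m = 0` for `m < 0`, is nonnegative: for all strictly
increasing choices `i`, `j` of `r` rows and `r` columns, the determinant is `≥ 0`. -/
def TotallyPositive (a : ℕ → ℝ) : Prop :=
  ∀ (r : ℕ) (i j : Fin r → ℕ), StrictMono i → StrictMono j →
    0 ≤ (Matrix.of fun s t : Fin r => if j t ≤ i s then a (i s - j t) else 0).det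

/-- `P` is an admissible polynomial of degree `n` with zeros `x 0 ≤ x 1 ≤ ... ≤ x (n - 1)`,
listed with multiplicity: `P = c (X - x 0) ⋯ (X - x (n - 1))` with `c ≠ 0`, and the sequence
`P(0), P(1), P(2), ...` is totally positive. -/
structure Admissible (n : ℕ) (P : Polynomial ℝ) (x : Fin n → ℝ) : Prop where
  factor : ∃ c : ℝ, c ≠ 0 ∧
    P = Polynomial.C c * ∏ i : Fin n, (Polynomial.X - Polynomial.C (x i))
  sorted : Monotone x
  totallyPositive : TotallyPositive fun k : ℕ => P.eval (k : ℝ)

end Pool.Agent.Results.MP_c563b5_an.GapUnbounded
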