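import Mathlib

set_option autoImplicit false

namespace Pool.Agent.Results.MP_c563b5_an.GapUnbounded

open Finset Polynomial

/-- the sequence `k ↦ ∑ j, e_j * C(k + j, j)` attached to the polynomial `E = ∑ e_j X^j`. -/
noncomputable def seqOf (E : ℝ[X]) (k : ℕ) : ℝ :=
  E.sum fun j c => c * (((k + j).choose j : ℕ) : ℝ)

lemma seqOf_add (E F : ℝ[X]) (k : ℕ) : seqOf (E + F) k = seqOf E k + seqOf F k := by
  unfold seqOf
  apply Polynomial.sum_add_index
  · intro i; simp
  · intro i a b; ring

lemma seqOf_monomial (j : ℕ) (a : ℝ) (k : ℕ) :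
    seqOf (monomial j a) k = a * (((k + j).choose j : ℕ) : ℝ) := by
  unfold seqOf
  apply Polynomial.sum_monomial_index
  simp

lemma seqOf_neg (E : ℝ[X]) (k : ℕ) : seqOf (-E) k = - seqOf E k := by
  have h := seqOf_add E (-E) k
  rw [add_neg_cancel] at h
  have h0 : seqOf (0 : ℝ[X]) k = 0 := by simp [seqOf]
  linarith

lemma seqOf_sub (E F : ℝ[X]) (k : ℕ) : seqOf (E - F) k = seqOf E k - seqOf F k := by
  rw [sub_eq_add_neg, seqOf_add, seqOf_neg, sub_eq_add_neg]

lemma seqOf_C_mul (c : ℝ) (E : ℝ[X]) (k : ℕ) : seqOf (C c * E) k = c * seqOf E k := by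
  induction E using Polynomial.induction_on' with
  | add p q hp hq => rw [mul_add, seqOf_add, hp, hq, seqOf_add]; ring
  | monomial n a => rw [C_mul_monomial, seqOf_monomial, seqOf_monomial]; ring

lemma seqOf_X_mul (E : ℝ[X]) (k : ℕ) :
    seqOf (X * E) k = ∑ l ∈ range (k + 1), seqOf E l := by
  induction E using Polynomial.induction_on' with
  | add p q hp hq => simp_rw [mul_add, seqOf_add, hp, hq, Finset.sum_add_distrib]
  | monomial n a =>
    rw [X_mul_monomial, seqOf_monomial]
    simp_rw [seqOf_monomial]
    rw [← Finset.mul_sum, ← Nat.cast_sum, Nat.sum_range_add_choose]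
    rfl

lemma seqOf_one (k : ℕ) : seqOf 1 k = 1 := by
  rw [← monomial_zero_one, seqOf_monomial]; simp

/-- the operator on polynomials which corresponds to multiplying the sequence by `k + c`. -/
noncomputable def T (c : ℝ) (E : ℝ[X]) : ℝ[X] :=
  (C (c - 1) + X) * E - X * (1 - X) * derivative E

lemma T_add (c : ℝ) (E F : ℝ[X]) : T c (E + F) = T c E + T c F := by
  simp only [T, derivative_add]; ring

lemma seqOf_T (c : ℝ) (E : ℝ[X]) (k : ℕ) : seqOf (T c E) k = (k + c) * seqOf E k := by
  induction E using Polynomial.induction_on' with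
  | add p q hp hq => rw [T_add, seqOf_add, hp, hq, seqOf_add]; ring
  | monomial n a =>
    cases n with
    | zero =>
      have h : T c (monomial 0 a) = monomial 0 ((c - 1) * a) + monomial 1 a := by
        simp only [T, derivative_monomial]
        simp only [monomial_zero_left, Nat.cast_zero, mul_zero, map_zero, sub_zero]
        rw [← C_mul_X_eq_monomial, C_mul]; ring
      rw [h, seqOf_add, seqOf_monomial, seqOf_monomial, seqOf_monomial]
      simp
      ring
    | succ n =>
      have h : T c (monomial (n + 1) a)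
          = monomial (n + 1) ((c - 1 - (n + 1)) * a) + monomial (n + 2) ((n + 2) * a) := by
        simp only [T, derivative_monomial]
        simp only [← C_mul_X_pow_eq_monomial]
        simp only [C_mul, C_sub, C_add, C_1, Nat.add_sub_cancel, map_natCast, Nat.cast_add,
          Nat.cast_one, C_ofNat]
        ring
      rw [h, seqOf_add, seqOf_monomial, seqOf_monomial, seqOf_monomial]
      have hc := Nat.add_one_mul_choose_eq (k + (n + 1)) (n + 1)
      have hc' : ((k : ℝ) + (n + 1) + 1) * (((k + (n + 1)).choose (n + 1) : ℕ) : ℝ)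
          = (((k + (n + 2)).choose (n + 2) : ℕ) : ℝ) * (n + 2) := by
        have := congrArg (Nat.cast (R := ℝ)) hc
        push_cast at this
        rw [show k + (n + 2) = k + (n + 1) + 1 from by ring]
        rw [show ((n : ℝ) + 2) = n + 1 + 1 from by ring]
        exact this
      linear_combination a * (-hc')

lemma T_natDegree_le {c : ℝ} {E : ℝ[X]} {d : ℕ} (h : E.natDegree ≤ d) :
    (T c E).natDegree ≤ d + 1 := by
  unfold T
  refine (natDegree_sub_le _ _).trans (max_le ?_ ?_)
  · refine natDegree_mul_le.trans ?_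
    have : (C (c - 1) + X : ℝ[X]).natDegree ≤ 1 := by
      rw [add_comm]; exact natDegree_X_add_C _ |>.le
    omega
  · by_cases h0 : E.natDegree = 0
    · rw [natDegree_eq_zero] at h0
      obtain ⟨x, rfl⟩ := h0
      simp
    · refine natDegree_mul_le.trans ?_
      have h1 : (X * (1 - X) : ℝ[X]).natDegree ≤ 2 := by
        refine natDegree_mul_le.trans ?_
        have h2 : (1 - X : ℝ[X]).natDegree ≤ 1 := by
          refine (natDegree_sub_le _ _).trans ?_
          simp
        have h3 : (X : ℝ[X]).natDegree ≤ 1 := natDegree_X_le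
        omega
      have h4 := natDegree_derivative_lt h0
      omega

lemma T_eval (c : ℝ) (E : ℝ[X]) (u : ℝ) :
    (T c E).eval u = (c - 1 + u) * E.eval u - u * (1 - u) * (derivative E).eval u := by
  simp [T]

lemma hasSum_seqOf (E : ℝ[X]) {t : ℝ} (ht : |t| < 1) :
    HasSum (fun k : ℕ => seqOf E k * (-t) ^ k) (1 / (1 + t) * E.eval (1 / (1 + t))) := by
  induction E using Polynomial.induction_on' with
  | add p q hp hq =>
    convert hp.add hq using 1
    · funext k; rw [seqOf_add]; ring
    · rw [eval_add]; ring
  | monomial n a =>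
    have h := hasSum_choose_mul_geometric_of_norm_lt_one (𝕜 := ℝ) n (r := -t) (by simpa using ht)
    have e1 : (fun k : ℕ => seqOf (monomial n a) k * (-t) ^ k)
        = fun k : ℕ => a * ((((k + n).choose n : ℕ) : ℝ) * (-t) ^ k) := by
      funext k; rw [seqOf_monomial]; ring
    have e2 : 1 / (1 + t) * (monomial n a).eval (1 / (1 + t))
        = a * (1 / (1 - -t) ^ (n + 1)) := by
      rw [eval_monomial, sub_neg_eq_add, one_div_pow]
      have : (1 + t) ≠ 0 := by
        have := (abs_lt.1 ht).1
        linarith
      field_simp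
      ring
    rw [e1, e2]
    exact h.mul_left a

end Pool.Agent.Results.MP_c563b5_an.GapUnbounded
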