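import Pool.Agent.Lib_MP_c563b5_an.Defs

set_option autoImplicit false

namespace Pool.Agent.Results.MP_c563b5_an.GapUnbounded

open Finset

/-- All minors of an infinite matrix are nonnegative. -/
def MinorsNonneg (A : ℕ → ℕ → ℝ) : Prop :=
  ∀ (r : ℕ) (i j : Fin r → ℕ), StrictMono i → StrictMono j →
    0 ≤ (Matrix.of fun s t : Fin r => A (i s) (j t)).det

lemma MinorsNonneg.monotone {A : ℕ → ℕ → ℝ} (h : MinorsNonneg A) {r : ℕ} {i j : Fin r → ℕ}
    (hi : Monotone i) (hj : StrictMono j) :
    0 ≤ (Matrix.of fun s t : Fin r => A (i s) (j t)).det := by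
  by_cases hinj : Function.Injective i
  · exact h r i j (hi.strictMono_of_injective hinj) hj
  · simp only [Function.Injective, not_forall] at hinj
    obtain ⟨s, t, hst, hne⟩ := hinj
    rw [Matrix.det_zero_of_row_eq hne]
    funext k
    simp [hst]

lemma minors_partialSum {A : ℕ → ℕ → ℝ} (h : MinorsNonneg A) :
    MinorsNonneg (fun i j => ∑ k ∈ range (i + 1), A k j) := by
  intro r i j hi hj
  cases r with
  | zero => simp
  | succ n =>
    let lo : Fin (n + 1) → ℕ := Fin.cases 0 (fun s => i s.castSucc + 1)
    have key : (Matrix.of fun s t : Fin (n + 1) => ∑ k ∈ range (i s + 1), A k (j t)).det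
        = (Matrix.of fun s t : Fin (n + 1) => ∑ k ∈ Ico (lo s) (i s + 1), A k (j t)).det := by
      apply Matrix.det_eq_of_forall_row_eq_smul_add_pred (fun _ => 1)
      · intro t
        change ∑ k ∈ range (i 0 + 1), A k (j t) = ∑ k ∈ Ico 0 (i 0 + 1), A k (j t)
        rw [Finset.range_eq_Ico]
      · intro s t
        have h1 : i s.castSucc + 1 ≤ i s.succ + 1 := by
          have := hi (Fin.castSucc_lt_succ (i := s)); omega
        change ∑ k ∈ range (i s.succ + 1), A k (j t)
          = ∑ k ∈ Ico (i s.castSucc + 1) (i s.succ + 1), A k (j t)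
            + 1 * ∑ k ∈ range (i s.castSucc + 1), A k (j t)
        rw [one_mul, Finset.range_eq_Ico, Finset.range_eq_Ico,
          ← Finset.sum_Ico_consecutive _ (Nat.zero_le _) h1, add_comm]
    rw [key]
    have key2 : (Matrix.of fun s t : Fin (n + 1) => ∑ k ∈ Ico (lo s) (i s + 1), A k (j t)).det
        = Matrix.detRowAlternating.toMultilinearMap
            (fun s => ∑ k ∈ Ico (lo s) (i s + 1), (fun t => A k (j t))) := by
      show Matrix.det _ = Matrix.det _
      congr 1
      ext s t
      simp [Finset.sum_apply]
    rw [key2, MultilinearMap.map_sum_finset]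
    apply Finset.sum_nonneg
    intro q hq
    rw [Fintype.mem_piFinset] at hq
    have hq' : StrictMono q := by
      rw [Fin.strictMono_iff_lt_succ]
      intro s
      have h1 := hq s.castSucc
      have h2 := hq s.succ
      simp only [lo, Fin.cases_succ, mem_Ico] at h1 h2
      omega
    exact h (n + 1) q j hq' hj

lemma minors_shift {A : ℕ → ℕ → ℝ} (h : MinorsNonneg A) :
    MinorsNonneg (fun i j => ∑ k ∈ range i, A k j) := by
  intro r i j hi hj
  have hC := minors_partialSum h
  by_cases h0 : ∃ s, i s = 0
  · obtain ⟨s, hs⟩ := h0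
    rw [Matrix.det_eq_zero_of_row_eq_zero s]
    intro t
    simp [hs]
  · push Not at h0
    have := hC r (fun s => i s - 1) j (by
      intro s t hst
      have := hi hst
      have h1 := h0 s
      simp only
      omega) hj
    convert this using 3
    ext s t
    have h1 := h0 s
    simp only
    rw [Nat.sub_add_cancel (by omega)]

lemma minors_mix {A : ℕ → ℕ → ℝ} (h : MinorsNonneg A) {α β : ℝ} (hα : 0 ≤ α) (hβ : 0 ≤ β) :
    MinorsNonneg (fun i j => α * A (i + 1) j + β * A i j) := by
  intro r i j hi hj
  let g : Fin r → Bool → (Fin r → ℝ) := fun s e =>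
    (bif e then α else β) • (fun t => A (i s + (bif e then 1 else 0)) (j t))
  have key : (Matrix.of fun s t : Fin r => α * A (i s + 1) (j t) + β * A (i s) (j t)).det
      = Matrix.detRowAlternating.toMultilinearMap (fun s => ∑ e : Bool, g s e) := by
    show Matrix.det _ = Matrix.det _
    congr 1
    ext s t
    simp [g]
  rw [key, MultilinearMap.map_sum]
  apply Finset.sum_nonneg
  intro q _
  show 0 ≤ Matrix.detRowAlternating.toMultilinearMap (fun s => g s (q s))
  simp only [g]
  rw [MultilinearMap.map_smul_univ]
  apply smul_nonneg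
  · apply Finset.prod_nonneg
    intro s _
    cases q s <;> simpa
  · have hmono : Monotone (fun s => i s + (bif q s then 1 else 0)) := by
      intro s t hst
      rcases hst.eq_or_lt with rfl | hlt
      · exact le_rfl
      · have := hi hlt
        simp only
        cases q s <;> cases q t <;> simp <;> omega
    exact h.monotone hmono hj

lemma minors_id : MinorsNonneg (fun i j => if i = j then 1 else 0) := by
  intro r i j hi hj
  by_cases hall : ∀ s, ∃ t, i s = j t
  · have hr : Set.range i = Set.range j := by
      have hsub : Set.range i ⊆ Set.range j := by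
        rintro _ ⟨s, rfl⟩
        obtain ⟨t, ht⟩ := hall s
        exact ⟨t, ht.symm⟩
      apply Set.eq_of_subset_of_ncard_le hsub
      rw [Set.ncard_range_of_injective hi.injective, Set.ncard_range_of_injective hj.injective]
    have hij : i = j := (hi.range_inj hj).1 hr
    subst hij
    have : (Matrix.of fun s t : Fin r => if i s = i t then (1 : ℝ) else 0) = 1 := by
      ext s t
      by_cases hst : s = t
      · subst hst
        simp
      · have : i s ≠ i t := fun h => hst (hi.injective h)
        simp [hst, this]
    rw [this, Matrix.det_one]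
    exact zero_le_one
  · push Not at hall
    obtain ⟨s, hs⟩ := hall
    rw [Matrix.det_eq_zero_of_row_eq_zero s]
    intro t
    simp [hs t]

lemma toeplitz_sum (a : ℕ → ℝ) (i j : ℕ) :
    ∑ k ∈ range (i + 1), (if j ≤ k then a (k - j) else 0)
      = if j ≤ i then ∑ l ∈ range (i - j + 1), a l else 0 := by
  split_ifs with hji
  · obtain ⟨m, rfl⟩ := Nat.exists_eq_add_of_le hji
    rw [add_assoc, Finset.sum_range_add]
    rw [Finset.sum_eq_zero (s := range j)]
    · simp
    · intro x hx
      rw [mem_range] at hx
      rw [if_neg (by omega)]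
  · apply Finset.sum_eq_zero
    intro x hx
    rw [mem_range] at hx
    rw [if_neg (by omega)]

lemma TotallyPositive.step {a : ℕ → ℝ} (h : TotallyPositive a) {ρ : ℝ} (h0 : 0 ≤ ρ)
    (h1 : ρ ≤ 1) : TotallyPositive (fun k => (∑ l ∈ range (k + 1), a l) - ρ * a k) := by
  have hA : MinorsNonneg (fun i j => if j ≤ i then a (i - j) else 0) := h
  have hB := minors_mix (minors_shift hA) (sub_nonneg.2 h1) h0
  intro r i j hi hj
  have := hB r i j hi hj
  convert this using 3
  ext s t
  simp only
  have e1 := toeplitz_sum a (i s) (j t)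
  rw [e1, show ∑ k ∈ range (i s), (if j t ≤ k then a (k - j t) else 0)
      = (if j t ≤ i s then ∑ l ∈ range (i s - j t + 1), a l else 0)
        - (if j t ≤ i s then a (i s - j t) else 0) from by
      rw [← e1, Finset.sum_range_succ]; ring]
  split_ifs <;> ring

lemma totallyPositive_delta : TotallyPositive (fun k => if k = 0 then 1 else 0) := by
  intro r i j hi hj
  have := minors_id r i j hi hj
  convert this using 3
  ext s t
  simp only
  split_ifs <;> first | rfl | omega

lemma totallyPositive_const {c : ℝ} (hc : 0 ≤ c) : TotallyPositive (fun _ => c) := by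
  have h1 := totallyPositive_delta.step (le_refl (0 : ℝ)) zero_le_one
  intro r i j hi hj
  have := h1 r i j hi hj
  have e : (Matrix.of fun s t : Fin r => if j t ≤ i s then c else 0)
      = c • (Matrix.of fun s t : Fin r => if j t ≤ i s then
        ((∑ l ∈ range (i s - j t + 1), (if l = 0 then (1 : ℝ) else 0))
          - 0 * (if i s - j t = 0 then (1 : ℝ) else 0)) else 0) := by
    ext s t
    simp
  rw [e, Matrix.det_smul]
  exact mul_nonneg (pow_nonneg hc _) this

end Pool.Agent.Results.MP_c563b5_an.GapUnbounded
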